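import Pool.Agent.W295.PR.Stm

/-! Project PR: the groups of iterated commutators are connected. -/

set_option autoImplicit false

namespace Pool.Agent.W800.PR.QQC

open Pool.Agent.W295.PR Topology

theorem closure_preconn {P : Type} [Group P] [TopologicalSpace P] [IsTopologicalGroup P]
    (A : Set P) (hA : IsPreconnected A) (h1 : (1 : P) ∈ A) :
    IsPreconnected (Subgroup.closure A : Set P) := by
  set K := Subgroup.closure A with hK
  have hAK : A ⊆ (K : Set P) := Subgroup.subset_closure
  have hA' : IsPreconnected ((↑) ⁻¹' A : Set K) := by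
    have h0 : (Subtype.val : K → P) '' ((↑) ⁻¹' A : Set K) = A := by
      ext x
      constructor
      · rintro ⟨y, hy, rfl⟩
        exact hy
      · intro hx
        exact ⟨⟨x, hAK hx⟩, hx, rfl⟩
    refine (IsInducing.subtypeVal.isPreconnected_image).1 ?_
    exact h0.symm ▸ hA
  have h2 : ((↑) ⁻¹' A : Set K) ⊆ (Subgroup.connectedComponentOfOne K : Set K) :=
    hA'.subset_connectedComponent (x := (1 : K)) h1
  have h3 : (⊤ : Subgroup K) ≤ Subgroup.connectedComponentOfOne K := by
    rw [← Subgroup.closure_closure_coe_preimage (k := A), Subgroup.closure_le]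
    exact h2
  have h4 : IsPreconnected (Set.univ : Set K) := by
    have h5 : (Set.univ : Set K) = connectedComponent (1 : K) := by
      ext x
      simp only [Set.mem_univ, true_iff]
      exact h3 (Subgroup.mem_top x)
    rw [h5]
    exact isPreconnected_connectedComponent
  have h6 := h4.image (Subtype.val) continuous_subtype_val.continuousOn
  rwa [Set.image_univ, Subtype.range_coe] at h6

theorem main : S_QQc := by
  intro Y C P _ _ _ _ _ _ E hP ht hs n
  induction n with
  | zero =>
    show IsPreconnected ((⊤ : Subgroup P) : Set P)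
    rw [Subgroup.coe_top]
    exact hP
  | succ n ih =>
    show IsPreconnected (Subgroup.closure ({x | ∃ g ∈ E.QQ n, x = E.t g * g⁻¹} ∪
      {x | ∃ g ∈ E.QQ n, x = E.s g * g⁻¹}) : Set P)
    have e1 : {x | ∃ g ∈ E.QQ n, x = E.t g * g⁻¹} =
        (fun g => E.t g * g⁻¹) '' (E.QQ n : Set P) := by
      ext x
      constructor
      · rintro ⟨g, hg, rfl⟩
        exact ⟨g, hg, rfl⟩
      · rintro ⟨g, hg, rfl⟩
        exact ⟨g, hg, rfl⟩
    have e2 : {x | ∃ g ∈ E.QQ n, x = E.s g * g⁻¹} =
        (fun g => E.s g * g⁻¹) '' (E.QQ n : Set P) := by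
      ext x
      constructor
      · rintro ⟨g, hg, rfl⟩
        exact ⟨g, hg, rfl⟩
      · rintro ⟨g, hg, rfl⟩
        exact ⟨g, hg, rfl⟩
    have h1 : (1 : P) ∈ {x | ∃ g ∈ E.QQ n, x = E.t g * g⁻¹} :=
      ⟨1, (E.QQ n).one_mem, by rw [ht]; simp⟩
    have h2 : (1 : P) ∈ {x | ∃ g ∈ E.QQ n, x = E.s g * g⁻¹} :=
      ⟨1, (E.QQ n).one_mem, by rw [hs]; simp⟩
    have c1 : Continuous (fun g : P => E.t g * g⁻¹) := E.t_cont.mul continuous_inv
    have c2 : Continuous (fun g : P => E.s g * g⁻¹) := E.s_cont.mul continuous_inv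
    refine closure_preconn (P := P) _ ?_ (Or.inl h1)
    refine IsPreconnected.union (1 : P) h1 h2 ?_ ?_
    · rw [e1]
      exact ih.image _ c1.continuousOn
    · rw [e2]
      exact ih.image _ c2.continuousOn

end Pool.Agent.W800.PR.QQC
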